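import Pool.Agent.Y714.KE.BasA
import Pool.Agent.Y714.KF.Ct2

set_option autoImplicit false
set_option linter.unusedSectionVars false
set_option linter.unusedVariables false
set_option linter.unusedSimpArgs false

/-! Etale algebras: uniqueness of reduced lattices and neighbours. -/

namespace Pool.Agent.Y195.KE

open Pool.Agent.Y714.KE
open Pool.Agent.Y714.KF (FI sp ct nm pm ext br gl ubas qf bk el sg bf sp_mul sp_le sp_ne
  add_mul_add_le sp_natCast_le_one natCast_mul_mem intCast_mul_mem exists_primitive4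
  fst_mem_ct snd_mem_ct nm_pos)
open NumberField FractionalIdeal Module Finset
open scoped nonZeroDivisors

variable {s : Type} [Fintype s] [DecidableEq s] {K : s → Type} [∀ i, Field (K i)]
  [∀ i, NumberField (K i)]

theorem cn_ne_of_RDAt {p : ℕ} {P : Al K × Al K} (h : RDAt p P) {x : Al K}
    (hx : x ∈ LT P) (hx' : ¬ ∃ y ∈ LT P, x = (p : ℤ) • y) (i : s) : cn P i ≠ 0 := by
  have h1 := h x hx hx'
  have h2 : nA (cn P) ≠ 0 := by
    intro h0
    rw [h0] at h1
    have : (0 : ℚ) ≤ nA (fun i => sp (p : K i) * cn P i + sp (x i)) ^ 2 := sq_nonneg _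
    simp at h1
    linarith
  intro h3
  apply h2
  rw [nA]
  refine Finset.prod_eq_zero (Finset.mem_univ i) ?_
  rw [h3, nm, map_zero]

theorem zsmul_apply' (n : ℤ) (x : Al K) (i : s) : (n • x) i = (n : K i) * x i := by
  rw [Pi.smul_apply, zsmul_eq_mul]

theorem qsmul_apply' (n : ℚ) (x : Al K) (i : s) : (n • x) i = (n : K i) * x i := by
  rw [Pi.smul_apply, Algebra.smul_def, eq_ratCast]

theorem sm_rat (r : ℚ) (P : Al K × Al K) : sm (fun i => (r : K i)) P = r • P := by
  rw [sm]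
  refine Prod.ext ?_ ?_
  · funext i
    rw [Prod.smul_fst, qsmul_apply']
    rfl
  · funext i
    rw [Prod.smul_snd, qsmul_apply']
    rfl

theorem uni : S_UNI K := by
  intro P P' hP hP' h h' ⟨a, b, c, d, e⟩
  obtain ⟨r, A, B, C, D, hr, hA, hB, hC, hD, hprim⟩ := exists_primitive4 a b c d (by
    rintro ⟨h1, h2, _, _⟩
    have h3 : P'.1 = 0 := by rw [e, glq, h1, h2]; simp
    have := hP' 1 0 (by rw [h3]; simp)
    exact one_ne_zero this.1)
  set Q : Al K × Al K := r • P' with hQ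
  have hQ1 : Q.1 = A • P.1 + B • P.2 := by
    rw [hQ, Prod.smul_fst, e, glq, ← Int.cast_smul_eq_zsmul ℚ A, ← Int.cast_smul_eq_zsmul ℚ B,
      ← hA, ← hB]
    simp only [smul_add, smul_smul]
  have hQ2 : Q.2 = C • P.1 + D • P.2 := by
    rw [hQ, Prod.smul_snd, e, glq, ← Int.cast_smul_eq_zsmul ℚ C, ← Int.cast_smul_eq_zsmul ℚ D,
      ← hC, ← hD]
    simp only [smul_add, smul_smul]
  have hQred : RD Q := by
    have := h'.sm (x := fun i => (r : K i)) (fun i => by exact_mod_cast hr)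
    rwa [sm_rat] at this
  have hQle : LT Q ≤ LT P := LT_le_iff.2 ⟨mem_LT.2 ⟨A, B, hQ1.symm⟩, mem_LT.2 ⟨C, D, hQ2.symm⟩⟩
  have hINQ : IN Q := by
    intro x y hxy
    have := hP' (x * r) (y * r) (by
      rw [hQ, Prod.smul_fst, Prod.smul_snd] at hxy
      rw [← hxy]
      simp only [smul_smul])
    exact ⟨(mul_eq_zero.1 this.1).resolve_right hr, (mul_eq_zero.1 this.2).resolve_right hr⟩
  -- integral independence
  have hPZ : ∀ x y : ℤ, x • P.1 + y • P.2 = 0 → x = 0 ∧ y = 0 := by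
    intro x y hxy
    have := hP x y (by rw [Int.cast_smul_eq_zsmul, Int.cast_smul_eq_zsmul]; exact hxy)
    exact ⟨by exact_mod_cast this.1, by exact_mod_cast this.2⟩
  have hQZ : ∀ x y : ℤ, x • Q.1 + y • Q.2 = 0 → x = 0 ∧ y = 0 := by
    intro x y hxy
    have := hINQ x y (by rw [Int.cast_smul_eq_zsmul, Int.cast_smul_eq_zsmul]; exact hxy)
    exact ⟨by exact_mod_cast this.1, by exact_mod_cast this.2⟩
  have hdet : A * D - B * C ≠ 0 := by
    intro h0
    have h1 : D • Q.1 + (-B) • Q.2 = 0 := by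
      have : D • Q.1 + (-B) • Q.2 = (A * D - B * C) • P.1 := by rw [hQ1, hQ2]; module
      rw [this, h0, zero_smul]
    have h2 : C • Q.1 + (-A) • Q.2 = 0 := by
      have : C • Q.1 + (-A) • Q.2 = (-(A * D - B * C)) • P.2 := by rw [hQ1, hQ2]; module
      rw [this, h0, neg_zero, zero_smul]
    obtain ⟨hD0, hB0⟩ := hQZ _ _ h1
    obtain ⟨hC0, hA0⟩ := hQZ _ _ h2
    rw [neg_eq_zero] at hB0 hA0
    exact hprim 2 Nat.prime_two (by simp [hA0, hB0, hC0, hD0])
  have hPQ : LT Q = LT P := by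
    by_contra hne
    obtain ⟨m, hm, hmQ⟩ : ∃ m ∈ LT P, m ∉ LT Q := by
      by_contra hcon
      push Not at hcon
      exact hne (le_antisymm hQle hcon)
    have hk : ∃ k : ℕ, 0 < k ∧ (k : ℤ) • m ∈ LT Q := by
      refine ⟨(A * D - B * C).natAbs, Int.natAbs_pos.2 hdet, ?_⟩
      obtain ⟨x, y, rfl⟩ := mem_LT.1 hm
      have h1 : (A * D - B * C : ℤ) • (x • P.1 + y • P.2) ∈ LT Q := by
        refine mem_LT.2 ⟨x * D - y * C, -x * B + y * A, ?_⟩
        rw [hQ1, hQ2]; module
      rcases Int.natAbs_eq (A * D - B * C) with h2 | h2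
      · rw [← h2]; exact h1
      · have h3 : (((A * D - B * C).natAbs : ℕ) : ℤ) = -(A * D - B * C) := by omega
        rw [h3, neg_smul]; exact (LT Q).neg_mem h1
    classical
    set k := Nat.find hk with hkdef
    obtain ⟨hk0, hkm⟩ := Nat.find_spec hk
    have hk1 : k ≠ 1 := by
      intro h1
      rw [← hkdef, h1, Nat.cast_one, one_smul] at hkm
      exact hmQ hkm
    obtain ⟨p, hp, hpk⟩ := Nat.exists_prime_and_dvd hk1
    obtain ⟨l, hl⟩ := hpk
    have hl0 : 0 < l := Nat.pos_of_ne_zero fun h0 => by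
      rw [h0, mul_zero] at hl; omega
    have hlk : l < k := by
      rw [hl]
      have := hp.two_le
      nlinarith
    have hm1 : (l : ℤ) • m ∉ LT Q := fun hc => Nat.find_min hk hlk ⟨hl0, hc⟩
    set m1 : Al K := (l : ℤ) • m with hm1def
    have hm1P : m1 ∈ LT P := (LT P).smul_mem (l : ℤ) hm
    have hpm1 : (p : ℤ) • m1 ∈ LT Q := by
      have : (p : ℤ) • m1 = (k : ℤ) • m := by
        rw [hm1def, hl, smul_smul]; push_cast; rfl
      rw [this]; exact hkm
    have hpZ : (p : ℤ) ≠ 0 := by exact_mod_cast hp.ne_zero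
    -- an element of LT Q which is not in p LT P
    obtain ⟨g, hgQ, hg⟩ : ∃ g ∈ LT Q, ¬ ∃ y ∈ LT P, g = (p : ℤ) • y := by
      by_contra hcon
      push Not at hcon
      obtain ⟨y1, hy1, hy1'⟩ := hcon Q.1 (fst_mem_LT Q)
      obtain ⟨y2, hy2, hy2'⟩ := hcon Q.2 (snd_mem_LT Q)
      obtain ⟨x, y, rfl⟩ := mem_LT.1 hy1
      obtain ⟨z, w, rfl⟩ := mem_LT.1 hy2
      have f1 := hPZ (A - p * x) (B - p * y) (by
        rw [hQ1] at hy1'
        have : (A - p * x) • P.1 + (B - p * y) • P.2 =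
          (A • P.1 + B • P.2) - (p : ℤ) • (x • P.1 + y • P.2) := by module
        rw [this, hy1', sub_self])
      have f2 := hPZ (C - p * z) (D - p * w) (by
        rw [hQ2] at hy2'
        have : (C - p * z) • P.1 + (D - p * w) • P.2 =
          (C • P.1 + D • P.2) - (p : ℤ) • (z • P.1 + w • P.2) := by module
        rw [this, hy2', sub_self])
      exact hprim p hp ⟨⟨x, sub_eq_zero.1 f1.1⟩, ⟨y, sub_eq_zero.1 f1.2⟩,
        ⟨z, sub_eq_zero.1 f2.1⟩, ⟨w, sub_eq_zero.1 f2.2⟩⟩
    have hnm1 : ¬ ∃ y ∈ LT Q, (p : ℤ) • m1 = (p : ℤ) • y := by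
      rintro ⟨y, hy, hy'⟩
      have : m1 = y := by
        funext i
        have h1 := congrFun hy' i
        rw [zsmul_apply', zsmul_apply'] at h1
        exact mul_left_cancel₀ (by exact_mod_cast hp.ne_zero) h1
      rw [this] at hm1
      exact hm1 hy
    have i1 := h p hp g (hQle hgQ) hg
    have i2 := hQred p hp ((p : ℤ) • m1) hpm1 hnm1
    have hPne : ∀ i, cn P i ≠ 0 := cn_ne_of_RDAt (h p hp) (hQle hgQ) hg
    have hQne : ∀ i, cn Q i ≠ 0 := cn_ne_of_RDAt (hQred p hp) hpm1 hnm1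
    set J : FA K := fun i => sp (p : K i) * cn P i + sp (g i) with hJ
    set J' : FA K := fun i => sp (p : K i) * cn Q i + sp (((p : ℤ) • m1) i) with hJ'
    have hpK : ∀ i, (p : K i) ≠ 0 := fun i => by exact_mod_cast hp.ne_zero
    have hincl : ∀ i, J i * J' i ≤ sp (p : K i) * (cn P i * cn Q i) := by
      intro i
      have g1 : sp (g i) ≤ cn P i := sp_le.2 (LT_mem (fun _ => le_rfl) (hQle hgQ) i)
      have g2 : sp (g i) ≤ cn Q i := sp_le.2 (LT_mem (fun _ => le_rfl) hgQ i)
      have g3 : sp (((p : ℤ) • m1) i) ≤ cn Q i := sp_le.2 (LT_mem (fun _ => le_rfl) hpm1 i)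
      have g4 : sp (m1 i) ≤ cn P i := sp_le.2 (LT_mem (fun _ => le_rfl) hm1P i)
      have g5 : sp (((p : ℤ) • m1) i) = sp (p : K i) * sp (m1 i) := by
        rw [zsmul_apply', sp_mul]
        congr 2
        push_cast
        rfl
      refine add_mul_add_le ?_ ?_ ?_ ?_
      · calc sp (p : K i) * cn P i * (sp (p : K i) * cn Q i) ≤
              sp (p : K i) * cn P i * (1 * cn Q i) := by
              gcongr; exact sp_natCast_le_one p
          _ = _ := by rw [one_mul, mul_assoc]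
      · calc sp (p : K i) * cn P i * sp (((p : ℤ) • m1) i) ≤ sp (p : K i) * cn P i * cn Q i := by
              gcongr
          _ = _ := by rw [mul_assoc]
      · calc sp (g i) * (sp (p : K i) * cn Q i) ≤ cn P i * (sp (p : K i) * cn Q i) := by gcongr
          _ = _ := by ring
      · calc sp (g i) * sp (((p : ℤ) • m1) i) = sp (p : K i) * (sp (m1 i) * sp (g i)) := by
              rw [g5]; ring
          _ ≤ sp (p : K i) * (cn P i * cn Q i) := by gcongr
    have hJne : ∀ i, J i ≠ 0 := by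
      intro i h0
      have : sp (p : K i) * cn P i ≤ J i := by
        simp only [hJ]; rw [← sup_eq_add]; exact le_sup_left
      rw [h0] at this
      exact mul_ne_zero (sp_ne (hpK i)) (hPne i) (le_antisymm this (zero_le _))
    have hJ'ne : ∀ i, J' i ≠ 0 := by
      intro i h0
      have : sp (p : K i) * cn Q i ≤ J' i := by
        simp only [hJ']; rw [← sup_eq_add]; exact le_sup_left
      rw [h0] at this
      exact mul_ne_zero (sp_ne (hpK i)) (hQne i) (le_antisymm this (zero_le _))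
    have h1 := nA_anti (fun i => mul_ne_zero (hJne i) (hJ'ne i)) hincl
    rw [nA_mul (fun i => sp (p : K i)) (fun i => cn P i * cn Q i), nA_mul (fun i => cn P i)
      (fun i => cn Q i), nA_mul J J', nA_natCast] at h1
    have h3 : 0 < nA (fun i => cn P i) := nA_pos hPne
    have h4 : 0 < nA (fun i => cn Q i) := nA_pos hQne
    have h5 := nA_pos hJne
    have h6 := nA_pos hJ'ne
    have hpn : (0 : ℚ) < (p : ℚ) ^ dg K := by have := hp.pos; positivity
    change nA J ^ 2 < (p : ℚ) ^ dg K * nA (fun i => cn P i) ^ 2 at i1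
    change nA J' ^ 2 < (p : ℚ) ^ dg K * nA (fun i => cn Q i) ^ 2 at i2
    have h7 : ((p : ℚ) ^ dg K * (nA (fun i => cn P i) * nA (fun i => cn Q i))) ^ 2 ≤
        (nA J * nA J') ^ 2 :=
      pow_le_pow_left₀ (by positivity) h1 2
    have h8 : (nA J * nA J') ^ 2 < ((p : ℚ) ^ dg K * nA (fun i => cn P i) ^ 2) *
        ((p : ℚ) ^ dg K * nA (fun i => cn Q i) ^ 2) := by
      rw [mul_pow]
      exact mul_lt_mul i1 i2.le (by positivity) (by positivity)
    have h9 : ((p : ℚ) ^ dg K * (nA (fun i => cn P i) * nA (fun i => cn Q i))) ^ 2 =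
        ((p : ℚ) ^ dg K * nA (fun i => cn P i) ^ 2) *
          ((p : ℚ) ^ dg K * nA (fun i => cn Q i) ^ 2) := by ring
    rw [h9] at h7
    exact absurd (h7.trans_lt h8) (lt_irrefl _)
  refine ⟨r⁻¹, inv_ne_zero hr, ?_⟩
  have hP'Q : P' = r⁻¹ • Q := by
    rw [hQ, smul_smul, inv_mul_cancel₀ hr, one_smul]
  rw [hP'Q, ← sm_rat, ← sm_rat]
  ext y
  rw [mem_LT_sm, mem_LT_sm, hPQ]

theorem cn_nb (p : ℕ) (o : Option (Fin p)) (P : Al K × Al K) (i : s) :
    cn (nb p o P) i = sp (p : K i) * cn P i + sp ((nb p o P).1 i) := by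
  have h1 := Pool.Agent.Y714.KF.ct_nb p o (cp P i)
  have h2 : cp (nb p o P) i = Pool.Agent.Y714.KF.nb p o (cp P i) := by
    cases o with
    | none =>
      simp only [nb, cp, Pool.Agent.Y714.KF.nb, zsmul_apply']
      push_cast
      rfl
    | some r =>
      simp only [nb, cp, Pool.Agent.Y714.KF.nb, zsmul_apply', Pi.add_apply]
      push_cast
      rfl
  rw [cn, h2, h1, ← h2]
  rfl

theorem mem_cn_fst (P : Al K × Al K) (i : s) : P.1 i ∈ cn P i := fst_mem_ct (cp P i)

theorem mem_cn_snd (P : Al K × Al K) (i : s) : P.2 i ∈ cn P i := snd_mem_ct (cp P i)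

theorem nbr : S_NB K := by
  intro p hp P hP h
  unfold RDAt at h
  push Not at h
  obtain ⟨x, hx, hx', hle⟩ := h
  obtain ⟨m, n, rfl⟩ := mem_LT.1 hx
  have key : ∀ o : Option (Fin p), ∀ u v : ℤ, ∀ y ∈ LT P, ∀ z ∈ LT P,
      m • P.1 + n • P.2 = u • (nb p o P).1 + (p : ℤ) • y →
      (nb p o P).1 = v • (m • P.1 + n • P.2) + (p : ℤ) • z →
      (fun i => sp (p : K i) * cn P i + sp ((m • P.1 + n • P.2) i)) = cn (nb p o P) := by
    intro o u v y hy z hz h1 h2
    funext i
    rw [cn_nb]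
    have hsub : ∀ (w w' : Al K) (u : ℤ) (y : Al K), y ∈ LT P → w = u • w' + (p : ℤ) • y →
        sp (p : K i) * cn P i + sp (w i) ≤ sp (p : K i) * cn P i + sp (w' i) := by
      intro w w' u y hy hw
      rw [← sup_eq_add, ← sup_eq_add]
      refine sup_le le_sup_left (sp_le.2 ?_)
      rw [hw, sup_eq_add, Pi.add_apply, zsmul_apply', zsmul_apply']
      refine ((sp (p : K i) * cn P i + sp (w' i) : FI (K i)) : Submodule (𝓞 (K i)) (K i)).add_mem
        ?_ ?_
      · refine intCast_mul_mem u (sp_le.1 ?_)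
        rw [← sup_eq_add]; exact le_sup_right
      · refine sp_le.1 ?_
        rw [sp_mul, ← sup_eq_add]
        refine le_trans ?_ le_sup_left
        have h5 : sp (y i) ≤ cn P i := sp_le.2 (LT_mem (fun _ => le_rfl) hy i)
        push_cast
        gcongr
    exact le_antisymm (hsub _ _ u y hy h1) (hsub _ _ v z hz h2)
  have hpi : Prime (p : ℤ) := Nat.prime_iff_prime_int.1 hp
  have hcop : ∀ a : ℤ, ¬ (p : ℤ) ∣ a → ∃ v w : ℤ, v * a + w * p = 1 := by
    intro a ha
    have := (hpi.irreducible.coprime_iff_not_dvd.2 ha)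
    obtain ⟨u, v, huv⟩ := this
    exact ⟨v, u, by linarith⟩
  by_cases hm : (p : ℤ) ∣ m
  · have hn : ¬ (p : ℤ) ∣ n := by
      intro hn
      obtain ⟨m', rfl⟩ := hm
      obtain ⟨n', rfl⟩ := hn
      exact hx' (m' • P.1 + n' • P.2) (mem_LT.2 ⟨m', n', rfl⟩) (by module)
    obtain ⟨m', rfl⟩ := hm
    obtain ⟨v, w, hvw⟩ := hcop n hn
    refine ⟨none, ?_⟩
    rw [← key none n v (m' • P.1) ((LT P).smul_mem _ (fst_mem_LT P))
      (w • P.2 - (v * m') • P.1) ?_ ?_ ?_]
    · exact hle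
    · exact (LT P).sub_mem ((LT P).smul_mem _ (snd_mem_LT P))
        ((LT P).smul_mem _ (fst_mem_LT P))
    · simp only [nb]; module
    · simp only [nb]
      have : v • (((p : ℤ) * m') • P.1 + n • P.2) + (p : ℤ) • (w • P.2 - (v * m') • P.1) =
        (v * n + w * p) • P.2 := by module
      rw [this, hvw, one_smul]
  · obtain ⟨v, w, hvw⟩ := hcop m hm
    have hp0 : (0 : ℤ) < p := by exact_mod_cast hp.pos
    set r : ℤ := (n * v) % p with hr
    have hr0 : 0 ≤ r := Int.emod_nonneg _ hp0.ne'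
    have hrp : r < p := Int.emod_lt_of_pos _ hp0
    obtain ⟨t, ht⟩ : ∃ t, n * v = r + p * t :=
      ⟨n * v / p, by rw [hr]; exact (Int.emod_add_mul_ediv _ _).symm⟩
    have hrn : ((r.toNat : ℕ) : ℤ) = r := Int.toNat_of_nonneg hr0
    have hlt : r.toNat < p := by omega
    -- n = m r mod p
    have hnm : n = m * r + p * (m * t + n * w) := by
      have : n = n * (v * m + w * p) := by rw [hvw, mul_one]
      calc n = n * (v * m + w * p) := this
        _ = m * (n * v) + p * (n * w) := by ring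
        _ = _ := by rw [ht]; ring
    refine ⟨some ⟨r.toNat, hlt⟩, ?_⟩
    rw [← key (some ⟨r.toNat, hlt⟩) m v ((m * t + n * w : ℤ) • P.2)
      ((LT P).smul_mem _ (snd_mem_LT P)) (w • P.1 - (t : ℤ) • P.2) ?_ ?_ ?_]
    · exact hle
    · exact (LT P).sub_mem ((LT P).smul_mem _ (fst_mem_LT P))
        ((LT P).smul_mem _ (snd_mem_LT P))
    · simp only [nb, hrn]
      have : m • (P.1 + r • P.2) + (p : ℤ) • ((m * t + n * w) • P.2) =
        m • P.1 + (m * r + p * (m * t + n * w)) • P.2 := by module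
      rw [this, ← hnm]
    · simp only [nb, hrn]
      have : v • (m • P.1 + n • P.2) + (p : ℤ) • (w • P.1 - t • P.2) =
        (v * m + w * p) • P.1 + (n * v - p * t) • P.2 := by module
      rw [this, hvw, one_smul, ht]
      congr 2
      ring

end Pool.Agent.Y195.KE
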